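import Pool.Agent.W169.AF.Stm
import Pool.Agent.H307R2.LU

set_option autoImplicit false

namespace Pool.Agent.W750.AF

open Pool.Agent.W169.AF
open Finset

theorem prim_ne_one {q : ℕ} (hq : 2 ≤ q) {χ : DirichletCharacter ℂ q} (hχ : χ ∈ PC q) : χ ≠ 1 := by
  intro h
  classical
  have : NeZero q := ⟨by omega⟩
  unfold PC at hχ
  have h1 := (Finset.mem_filter.1 hχ).2
  rw [DirichletCharacter.isPrimitive_def, h, DirichletCharacter.conductor_one] at h1
  omega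

theorem ech_le {q : ℕ} (χ : DirichletCharacter ℂ q) {P : ℝ}
    (hP : ∀ N : ℕ, ‖∑ n ∈ Icc 1 N, χ (n : ZMod q)‖ ≤ P) (N : ℕ) (t : ℝ) :
    ‖Pool.Agent.H307R2.Ech χ N t‖ ≤ 2 * P := by
  have hP0 : 0 ≤ P := (norm_nonneg _).trans (hP 0)
  unfold Pool.Agent.H307R2.Ech
  rcases le_total N ⌊t⌋₊ with h | h
  · have e0 : ∀ M : ℕ, Icc 1 M = Ioc 0 M := by
      intro M
      ext n
      simp only [Finset.mem_Icc, Finset.mem_Ioc]
      omega
    have e1 : ∑ k ∈ Ioc N ⌊t⌋₊, χ (k : ZMod q) =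
        ∑ k ∈ Icc 1 ⌊t⌋₊, χ (k : ZMod q) - ∑ k ∈ Icc 1 N, χ (k : ZMod q) := by
      rw [e0, e0, ← Finset.sum_Ioc_consecutive _ (Nat.zero_le N) h]
      ring
    rw [e1]
    refine (norm_sub_le _ _).trans ?_
    have := hP ⌊t⌋₊
    have := hP N
    linarith
  · rw [Finset.Ioc_eq_empty_of_le h, Finset.sum_empty, norm_zero]
    positivity

theorem tl (hPV : S_PV) : S_TL := by
  obtain ⟨C, hC, h⟩ := hPV
  refine ⟨4 * C, by positivity, ?_⟩
  intro q hq χ hχ s hs N hN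
  have hq0 : q ≠ 0 := by omega
  have : NeZero q := ⟨hq0⟩
  have hs0 : 0 < s.re := by linarith
  have hne := prim_ne_one hq hχ
  have e1 : LF q χ s = χ.LFunction s := by
    unfold LF
    rw [dif_neg hq0]
  have hE := ech_le χ (fun M => h q hq χ hχ M) N
  have h2 := Pool.Agent.H307R2.TM_norm_le hN hE hs0
  rw [e1, Pool.Agent.H307R2.LFunction_eq hne hN hs0, add_sub_cancel_left, norm_mul]
  have hlog : 0 ≤ Real.log q := Real.log_nonneg (by exact_mod_cast (by omega : 1 ≤ q))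
  have hP0 : 0 ≤ Real.sqrt q * Real.log q := by positivity
  have hNp : 0 ≤ (N : ℝ) ^ (-s.re) := by positivity
  have h3 : (N : ℝ) ^ (-s.re) / s.re ≤ 2 * (N : ℝ) ^ (-s.re) := by
    rw [div_le_iff₀ hs0]
    nlinarith
  calc ‖s‖ * ‖Pool.Agent.H307R2.TM N (Pool.Agent.H307R2.Ech χ N) s‖
      ≤ (1 + ‖s‖) * (2 * (C * Real.sqrt q * Real.log q) * (2 * (N : ℝ) ^ (-s.re))) := by
        refine mul_le_mul (by linarith) (h2.trans ?_) (norm_nonneg _) (by positivity)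
        exact mul_le_mul_of_nonneg_left h3 (by positivity)
    _ = 4 * C * (1 + ‖s‖) * (Real.sqrt q * Real.log q) * (N : ℝ) ^ (-s.re) := by ring

end Pool.Agent.W750.AF
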